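import Pool.Agent.U570.AC.Sp

set_option autoImplicit false

open Matrix Finset Quaternion

namespace Pool.Agent.U570.AC

/-- extend a triple by ones -/
def pad (m : ℕ) : (Fin 3 → Q8) →* (Fin (m + 3) → Q8) where
  toFun x i := if h : i.val < 3 then x ⟨i.val, h⟩ else 1
  map_one' := by
    funext i
    by_cases h : i.val < 3 <;> simp [h]
  map_mul' x y := by
    funext i
    by_cases h : i.val < 3 <;> simp [h]

theorem pad_apply (m : ℕ) (x : Fin 3 → Q8) (i : Fin (m + 3)) :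
    pad m x i = if h : i.val < 3 then x ⟨i.val, h⟩ else 1 := rfl

/-- the first three indices -/
def f3 (m : ℕ) : Fin 3 ≃ {i : Fin (m + 3) // i.val < 3} where
  toFun i := ⟨⟨i.val, by omega⟩, i.2⟩
  invFun j := ⟨j.1.1, j.2⟩
  left_inv _ := rfl
  right_inv _ := rfl

theorem conj_pad (m : ℕ) (x y : Fin 3 → Q8) (σ : Equiv.Perm (Fin 3))
    (h : ∀ i, ty (x (σ i)) = ty (y i)) :
    IsConj (dl (m + 3) fun i => hu (pad m x i)) (dl (m + 3) fun i => hu (pad m y i)) := by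
  refine conj_all _ _ (σ.extendDomain (f3 m)) fun i => ?_
  by_cases hi : i.val < 3
  · have e : i = (f3 m ⟨i.val, hi⟩ : Fin (m + 3)) := rfl
    rw [e, Equiv.Perm.extendDomain_apply_image]
    have h1 : pad m x (f3 m (σ ⟨i.val, hi⟩) : Fin (m + 3)) = x (σ ⟨i.val, hi⟩) :=
      dif_pos (σ ⟨i.val, hi⟩).2
    have h2 : pad m y (f3 m ⟨i.val, hi⟩ : Fin (m + 3)) = y ⟨i.val, hi⟩ := dif_pos hi
    rw [h1, h2, h]
  · rw [Equiv.Perm.extendDomain_apply_not_subtype σ (f3 m) hi]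
    have h1 : pad m x i = 1 := dif_neg hi
    have h2 : pad m y i = 1 := dif_neg hi
    rw [h1, h2]

/-- the abelian group of order sixteen -/
abbrev A16 := Multiplicative (ZMod 4 × ZMod 4)

/-- the non-abelian group of order sixteen -/
abbrev B16 := Q8 × ℤˣ

/-- first triple -/
def g1fun (x : A16) : Fin 3 → Q8 :=
  ![.a (Multiplicative.toAdd x).1, .a (Multiplicative.toAdd x).2,
    .a ((Multiplicative.toAdd x).1 + (Multiplicative.toAdd x).2)]

/-- sign -/
def sg (e : ℤˣ) : Q8 := if e = 1 then 1 else .a 2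

/-- second triple -/
def g2fun (x : B16) : Fin 3 → Q8 := ![x.1, sg x.2, sg x.2 * x.1]

theorem g1_mul : ∀ x y : A16, g1fun (x * y) = g1fun x * g1fun y := by decide
theorem g2_mul : ∀ x y : B16, g2fun (x * y) = g2fun x * g2fun y := by decide

/-- first hom -/
def g1 : A16 →* (Fin 3 → Q8) where
  toFun := g1fun
  map_one' := by decide
  map_mul' := g1_mul

/-- second hom -/
def g2 : B16 →* (Fin 3 → Q8) where
  toFun := g2fun
  map_one' := by decide
  map_mul' := g2_mul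

/-- the bijection -/
def ph (x : A16) : B16 :=
  let y := Multiplicative.toAdd x
  if y = (0, 0) then (1, 1) else if y = (2, 0) then (.a 2, 1)
  else if y = (0, 2) then (1, -1) else if y = (2, 2) then (.a 2, -1)
  else if y = (1, 3) then (.a 1, 1) else if y = (3, 1) then (.a 3, 1)
  else if y = (1, 0) then (.xa 0, 1) else if y = (3, 0) then (.xa 2, 1)
  else if y = (0, 1) then (.xa 1, 1) else if y = (0, 3) then (.xa 3, 1)
  else if y = (1, 1) then (.a 1, -1) else if y = (3, 3) then (.a 3, -1)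
  else if y = (1, 2) then (.xa 0, -1) else if y = (3, 2) then (.xa 2, -1)
  else if y = (2, 1) then (.xa 1, -1) else (.xa 3, -1)

theorem ph_bij : Function.Bijective ph := by decide

theorem ph_ty : ∀ x : A16, ∃ σ : Equiv.Perm (Fin 3), ∀ i, ty (g1 x (σ i)) = ty (g2 (ph x) i) := by
  decide

/-- hom into the compact symplectic group -/
noncomputable def toSp (m : ℕ) : (Fin 3 → Q8) →* unitary (Matrix (Fin (m + 3)) (Fin (m + 3)) ℍ[ℝ]) :=
  (dl (m + 3)).comp ((MonoidHom.pi fun i => hu.comp (Pi.evalMonoidHom _ i)).comp (pad m))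

theorem toSp_apply (m : ℕ) (x : Fin 3 → Q8) :
    toSp m x = dl (m + 3) fun i => hu (pad m x i) := rfl

theorem spAll {m : ℕ} (Z : Subgroup (unitary (Matrix (Fin (m + 3)) (Fin (m + 3)) ℍ[ℝ]))) [Z.Normal]
    (hZ : Z ≤ Subgroup.center _) :
    HasPair (unitary (Matrix (Fin (m + 3)) (Fin (m + 3)) ℍ[ℝ]) ⧸ Z) := by
  refine abcore ((toSp m).comp g1) ((toSp m).comp g2) ph ph_bij (fun x => ?_)
    ((.a 1, 1) : B16) ((.xa 0, 1) : B16) (fun hc => ?_) Z hZ
  · obtain ⟨σ, hσ⟩ := ph_ty x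
    exact conj_pad m _ _ σ hσ
  · have e : g2 (((.a 1, 1) : B16) * ((.xa 0, 1) : B16) * ((.a 1, 1) : B16)⁻¹ *
        ((.xa 0, 1) : B16)⁻¹) = ![.a 2, 1, .a 2] := by decide
    have hc' : toSp m ![.a 2, 1, .a 2] ∈ Subgroup.center _ := by
      rw [← e]
      exact hc
    have h1 := congrArg Subtype.val (Subgroup.mem_center_iff.1 hc' (pm (Equiv.swap 0 1)))
    have h2 := congrFun (congrFun h1 0) 1
    change ((1 : Matrix (Fin (m + 3)) (Fin (m + 3)) ℍ[ℝ]).submatrix (Equiv.swap 0 1) id *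
      diagonal (fun i => (hu (pad m ![.a 2, 1, .a 2] i) : ℍ[ℝ]))) 0 1 =
      (diagonal (fun i => (hu (pad m ![.a 2, 1, .a 2] i) : ℍ[ℝ])) *
      (1 : Matrix (Fin (m + 3)) (Fin (m + 3)) ℍ[ℝ]).submatrix (Equiv.swap 0 1) id) 0 1 at h2
    rw [mul_diagonal, diagonal_mul, submatrix_apply, id, Equiv.swap_apply_left,
      Matrix.one_apply_eq, one_mul, mul_one] at h2
    have e0 : pad m ![.a 2, 1, .a 2] 0 = .a 2 := rfl
    have e1 : pad m ![.a 2, 1, .a 2] 1 = 1 := by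
      have hv : (1 : Fin (m + 3)).val = 1 := by simp
      have hlt : (1 : Fin (m + 3)).val < 3 := by rw [hv]; norm_num
      have h5 : pad m ![.a 2, 1, .a 2] 1 = (![.a 2, 1, .a 2] : Fin 3 → Q8) ⟨_, hlt⟩ := by
        rw [pad_apply, dif_pos hlt]
      have h6 : (⟨(1 : Fin (m + 3)).val, hlt⟩ : Fin 3) = 1 := Fin.ext hv
      rw [h5, h6]
      rfl
    rw [e0, e1] at h2
    have h3 := congrArg (fun q : ℍ[ℝ] => q.re) h2
    have k0 : (hu (1 : Q8) : ℍ[ℝ]).re = ((co 1 0 : ℤ) : ℝ) := rfl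
    have k1 : (hu (.a 2 : Q8) : ℍ[ℝ]).re = ((co (.a 2) 0 : ℤ) : ℝ) := rfl
    have h3' : ((co 1 0 : ℤ) : ℝ) = ((co (.a 2) 0 : ℤ) : ℝ) := by rw [← k0, ← k1]; exact h3
    have h4 : (co 1 0 : ℤ) = co (.a 2) 0 := by exact_mod_cast h3'
    exact absurd h4 (by decide)

end Pool.Agent.U570.AC
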