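import Mathlib

set_option autoImplicit false

open Matrix Finset

namespace Pool.Agent.U570.AC

/-- The elementary abelian group of order `8`. -/
abbrev E := Fin 3 → ℤˣ

/-- first sign pattern -/
def d1 (x : E) (i : ℕ) : ℤˣ :=
  if i < 2 then x 0 else if i < 4 then x 1 else if i < 6 then x 2 else 1

/-- second sign pattern -/
def d2 (x : E) (i : ℕ) : ℤˣ :=
  if i = 0 then x 0 * x 2 else if i = 1 then x 0 * x 1 * x 2
  else if i = 2 then x 1 * x 2 else if i < 6 then x 2 else 1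

/-- first sign pattern -/
def c1 (n : ℕ) (x : E) (i : Fin n) : ℤˣ := d1 x i.val

/-- second sign pattern -/
def c2 (n : ℕ) (x : E) (i : Fin n) : ℤˣ := d2 x i.val

theorem c1_mul (n : ℕ) (x y : E) (i : Fin n) : c1 n (x * y) i = c1 n x i * c1 n y i := by
  unfold c1 d1; split_ifs <;> simp

theorem mm (a b c d : ℤˣ) : a * b * (c * d) = a * c * (b * d) := mul_mul_mul_comm a b c d

theorem c2_mul (n : ℕ) (x y : E) (i : Fin n) : c2 n (x * y) i = c2 n x i * c2 n y i := by
  unfold c2 d2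
  simp only [Pi.mul_apply]
  split_ifs
  · exact mm _ _ _ _
  · rw [mm (x 0) (y 0), mm (x 0 * x 1)]
  · exact mm _ _ _ _
  · rfl
  · rfl

theorem c1_one (n : ℕ) (i : Fin n) : c1 n 1 i = 1 := by
  unfold c1 d1; split_ifs <;> simp

theorem c2_one (n : ℕ) (i : Fin n) : c2 n 1 i = 1 := by
  unfold c2 d2; split_ifs <;> simp

/-- the diagonal matrix with the given signs -/
def Dg {n : ℕ} (s : Fin n → ℤˣ) : Matrix (Fin n) (Fin n) ℤ := diagonal fun i => (s i : ℤ)

/-- the integer matrices in the special orthogonal group -/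
def SOZ (n : ℕ) : Submonoid (Matrix (Fin n) (Fin n) ℤ) where
  carrier := {M | M * Mᵀ = 1 ∧ Mᵀ * M = 1 ∧ M.det = 1}
  one_mem' := by simp
  mul_mem' := by
    rintro A B ⟨a1, a2, a3⟩ ⟨b1, b2, b3⟩
    refine ⟨?_, ?_, by rw [det_mul, a3, b3, mul_one]⟩
    · rw [transpose_mul, Matrix.mul_assoc, ← Matrix.mul_assoc B, b1, Matrix.one_mul, a1]
    · rw [transpose_mul, Matrix.mul_assoc, ← Matrix.mul_assoc Aᵀ, a2, Matrix.one_mul, b2]

theorem Dg_mem {n : ℕ} (s : Fin n → ℤˣ) (h : ∏ i, s i = 1) : Dg s ∈ SOZ n := by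
  have h1 : Dg s * Dg s = 1 := by
    rw [Dg, diagonal_mul_diagonal, ← diagonal_one]
    congr 1
    funext i
    rcases Int.units_eq_one_or (s i) with h | h <;> simp [h]
  refine ⟨by rw [show (Dg s)ᵀ = Dg s from diagonal_transpose _, h1],
    by rw [show (Dg s)ᵀ = Dg s from diagonal_transpose _, h1], ?_⟩
  rw [Dg, det_diagonal]
  have := congrArg (fun u : ℤˣ => (u : ℤ)) h
  simpa using this

theorem sq1 (u : ℤˣ) : u * u = 1 := by rcases Int.units_eq_one_or u with h | h <;> simp [h]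

theorem prod_c1 (m : ℕ) (x : E) : ∏ i, c1 (m + 6) x i = 1 := by
  simp only [c1]
  rw [← Finset.prod_range (fun i => d1 x i), add_comm m 6, Finset.prod_range_add,
    Finset.prod_congr rfl (fun i _ => show d1 x (6 + i) = 1 by
      unfold d1; split_ifs <;> first | omega | rfl), Finset.prod_const_one, mul_one]
  simp only [Finset.prod_range_succ, Finset.prod_range_zero, d1]
  rcases Int.units_eq_one_or (x 0) with h | h <;> rcases Int.units_eq_one_or (x 1) with h' | h' <;>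
    rcases Int.units_eq_one_or (x 2) with h'' | h'' <;> simp [h, h', h'']

theorem prod_c2 (m : ℕ) (x : E) : ∏ i, c2 (m + 6) x i = 1 := by
  simp only [c2]
  rw [← Finset.prod_range (fun i => d2 x i), add_comm m 6, Finset.prod_range_add,
    Finset.prod_congr rfl (fun i _ => show d2 x (6 + i) = 1 by
      unfold d2; split_ifs <;> first | omega | rfl), Finset.prod_const_one, mul_one]
  simp only [Finset.prod_range_succ, Finset.prod_range_zero, d2]
  rcases Int.units_eq_one_or (x 0) with h | h <;> rcases Int.units_eq_one_or (x 1) with h' | h' <;>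
    rcases Int.units_eq_one_or (x 2) with h'' | h'' <;> simp [h, h', h'']

/-- sum of the first pattern -/
def s1 (x : E) : ℤ := 2 * (x 0 : ℤ) + 2 * (x 1 : ℤ) + 2 * (x 2 : ℤ)

/-- sum of the second pattern -/
def s2 (x : E) : ℤ := ((x 0 * x 2 : ℤˣ) : ℤ) + ((x 0 * x 1 * x 2 : ℤˣ) : ℤ) +
  ((x 1 * x 2 : ℤˣ) : ℤ) + 3 * (x 2 : ℤ)

theorem sum_c1 (m : ℕ) (x : E) : ∑ i, (c1 (m + 6) x i : ℤ) = s1 x + m := by
  simp only [c1]
  rw [← Finset.sum_range (fun i => (d1 x i : ℤ)), add_comm m 6, Finset.sum_range_add,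
    Finset.sum_congr (s₁ := range m) rfl (fun i _ => show (d1 x (6 + i) : ℤ) = 1 by
      unfold d1; split_ifs <;> first | omega | rfl)]
  simp only [Finset.sum_range_succ, Finset.sum_range_zero, d1, s1]
  simp
  ring

theorem sum_c2 (m : ℕ) (x : E) : ∑ i, (c2 (m + 6) x i : ℤ) = s2 x + m := by
  simp only [c2]
  rw [← Finset.sum_range (fun i => (d2 x i : ℤ)), add_comm m 6, Finset.sum_range_add,
    Finset.sum_congr (s₁ := range m) rfl (fun i _ => show (d2 x (6 + i) : ℤ) = 1 by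
      unfold d2; split_ifs <;> first | omega | rfl)]
  simp only [Finset.sum_range_succ, Finset.sum_range_zero, d2, s2]
  simp
  ring

theorem trace_Dg {n : ℕ} (s : Fin n → ℤˣ) : (Dg s).trace = ∑ i, (s i : ℤ) := by
  simp [Dg, trace_diagonal]

/-- first family -/
def D1 (m : ℕ) : E →* SOZ (m + 6) where
  toFun x := ⟨Dg (c1 (m + 6) x), Dg_mem _ (prod_c1 m x)⟩
  map_one' := by
    apply Subtype.ext
    simp [Dg, c1_one]
  map_mul' x y := by
    apply Subtype.ext
    simp [Dg, c1_mul, diagonal_mul_diagonal]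

/-- second family -/
def D2 (m : ℕ) : E →* SOZ (m + 6) where
  toFun x := ⟨Dg (c2 (m + 6) x), Dg_mem _ (prod_c2 m x)⟩
  map_one' := by
    apply Subtype.ext
    simp [Dg, c2_one]
  map_mul' x y := by
    apply Subtype.ext
    simp [Dg, c2_mul, diagonal_mul_diagonal]

/-- the signed permutation matrix -/
def SP {n : ℕ} (s : Fin n → ℤˣ) (σ : Equiv.Perm (Fin n)) : Matrix (Fin n) (Fin n) ℤ :=
  fun i j => (s i : ℤ) * (if σ i = j then 1 else 0)

theorem SP_det {n : ℕ} (s : Fin n → ℤˣ) (σ : Equiv.Perm (Fin n)) :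
    (SP s σ).det = (∏ i, (s i : ℤ)) * (Equiv.Perm.sign σ : ℤ) := by
  have : SP s σ = diagonal (fun i => (s i : ℤ)) * (1 : Matrix (Fin n) (Fin n) ℤ).submatrix σ id := by
    ext i j
    simp [SP, diagonal_mul, Matrix.one_apply]
  rw [this, det_mul, det_diagonal, det_permute]
  simp

theorem SP_mem {n : ℕ} (s : Fin n → ℤˣ) (σ : Equiv.Perm (Fin n))
    (h : (∏ i, s i) * Equiv.Perm.sign σ = 1) : SP s σ ∈ SOZ n := by
  have h1 : SP s σ * (SP s σ)ᵀ = 1 := by
    ext i j
    simp only [mul_apply, transpose_apply, SP]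
    rw [Finset.sum_eq_single (σ i)]
    · by_cases hij : i = j
      · subst hij
        rcases Int.units_eq_one_or (s i) with h | h <;> simp [h]
      · simp [Matrix.one_apply, hij, Ne.symm hij]
    · intro b _ hb
      simp [hb.symm]
    · simp
  refine ⟨h1, mul_eq_one_comm.1 h1, ?_⟩
  rw [SP_det]
  have := congrArg (fun u : ℤˣ => (u : ℤ)) h
  simpa using this

theorem exists_SP (m : ℕ) (σ : Equiv.Perm (Fin (m + 6))) :
    ∃ s : Fin (m + 6) → ℤˣ, SP s σ ∈ SOZ (m + 6) := by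
  refine ⟨fun i => if i = 0 then Equiv.Perm.sign σ else 1, SP_mem _ _ ?_⟩
  rw [Finset.prod_ite_eq' univ (0 : Fin (m + 6)) (fun _ => Equiv.Perm.sign σ)]
  simp

theorem card_neg {n : ℕ} (f : Fin n → ℤˣ) :
    ∑ i, (f i : ℤ) = n - 2 * (Fintype.card {i // f i = -1} : ℤ) := by
  have h : ∀ i, (f i : ℤ) = 1 - 2 * (if f i = -1 then 1 else 0 : ℤ) := by
    intro i
    rcases Int.units_eq_one_or (f i) with h | h
    · rw [h]; norm_num
    · rw [h]; norm_num
  rw [Finset.sum_congr rfl fun i _ => h i, Finset.sum_sub_distrib, ← Finset.mul_sum,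
    Finset.sum_boole, Fintype.card_subtype]
  simp

theorem exists_perm {n : ℕ} (f g : Fin n → ℤˣ) (h : ∑ i, (f i : ℤ) = ∑ i, (g i : ℤ)) :
    ∃ σ : Equiv.Perm (Fin n), ∀ i, g i = f (σ i) := by
  rw [card_neg, card_neg] at h
  have hc : Fintype.card {i // g i = -1} = Fintype.card {i // f i = -1} := by omega
  let e := Fintype.equivOfCardEq hc
  refine ⟨e.extendSubtype, fun i => ?_⟩
  by_cases hi : g i = -1
  · rw [hi, e.extendSubtype_mem i hi]
  · have h1 := e.extendSubtype_not_mem i hi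
    rcases Int.units_eq_one_or (g i) with h | h
    · rcases Int.units_eq_one_or (f (e.extendSubtype i)) with h' | h'
      · rw [h, h']
      · exact absurd h' h1
    · exact absurd h hi

/-- the weight preserving bijection -/
def phiFun (x : E) : E :=
  if x 0 = 1 ∧ x 1 = 1 ∧ x 2 = 1 then ![1, 1, 1]
  else if x 0 = -1 ∧ x 1 = 1 ∧ x 2 = 1 then ![-1, 1, 1]
  else if x 0 = 1 ∧ x 1 = -1 ∧ x 2 = 1 then ![1, -1, 1]
  else if x 0 = 1 ∧ x 1 = 1 ∧ x 2 = -1 then ![-1, -1, 1]
  else if x 0 = -1 ∧ x 1 = -1 ∧ x 2 = 1 then ![-1, 1, -1]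
  else if x 0 = -1 ∧ x 1 = 1 ∧ x 2 = -1 then ![1, -1, -1]
  else if x 0 = 1 ∧ x 1 = -1 ∧ x 2 = -1 then ![-1, -1, -1]
  else ![1, 1, -1]

theorem phi_bij : Function.Bijective phiFun := by decide

theorem s2_phi : ∀ x : E, s2 (phiFun x) = s1 x := by decide

theorem no_pair : ∀ y y' : E, s2 y = s2 y' → s2 (y * y') ≠ -2 := by decide

theorem conj_D (m : ℕ) (x : E) : ∃ M : SOZ (m + 6), M * D1 m x = D2 m (phiFun x) * M := by
  obtain ⟨σ, hσ⟩ := exists_perm (c1 (m + 6) x) (c2 (m + 6) (phiFun x))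
    (by rw [sum_c1, sum_c2, s2_phi])
  obtain ⟨s, hs⟩ := exists_SP m σ
  refine ⟨⟨_, hs⟩, Subtype.ext ?_⟩
  change SP s σ * Dg (c1 (m + 6) x) = Dg (c2 (m + 6) (phiFun x)) * SP s σ
  ext i j
  rw [Dg, Dg, mul_diagonal, diagonal_mul, SP, hσ i]
  by_cases h : σ i = j
  · subst h
    simp [mul_comm]
  · simp [h]

end Pool.Agent.U570.AC
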