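import Mathlib

set_option autoImplicit false

open Matrix Finset

namespace Pool.Agent.U570.AC

/-- Two subgroups are almost conjugate: they meet every conjugacy class of the group in the same
number of elements (used for finite subgroups). -/
def AlmostConjugate {K : Type*} [Group K] (Γ₁ Γ₂ : Subgroup K) : Prop :=
  ∀ x : K, Nat.card {g : K // g ∈ Γ₁ ∧ IsConj x g} = Nat.card {g : K // g ∈ Γ₂ ∧ IsConj x g}

/-- The group contains two finite subgroups which are almost conjugate and not conjugate. -/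
def HasPair (K : Type*) [Group K] : Prop :=
  ∃ Γ₁ Γ₂ : Subgroup K, Finite Γ₁ ∧ Finite Γ₂ ∧ AlmostConjugate Γ₁ Γ₂ ∧
    ¬ ∃ g : K, ∀ x : K, x ∈ Γ₁ ↔ g * x * g⁻¹ ∈ Γ₂

theorem card_range_inter {G : Type*} [Group G] [Fintype G] {Q : Type*} [Group Q] (θ : G →* Q)
    (P : Q → Prop) :
    Nat.card {x : G // P (θ x)} = Nat.card {g : Q // g ∈ θ.range ∧ P g} *
      Nat.card {x : G // θ x = 1} := by
  classical
  have h1 : Nat.card {x : G // P (θ x)} = (univ.filter fun x : G => P (θ x)).card := by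
    rw [Nat.card_eq_fintype_card, Fintype.card_subtype]
  have h2 : Nat.card {x : G // θ x = 1} = (univ.filter fun x : G => θ x = 1).card := by
    rw [Nat.card_eq_fintype_card, Fintype.card_subtype]
  have h3 : Nat.card {g : Q // g ∈ θ.range ∧ P g} =
      ((univ.filter fun x : G => P (θ x)).image θ).card := by
    have e : {g : Q | g ∈ θ.range ∧ P g} =
        (((univ.filter fun x : G => P (θ x)).image θ : Finset Q) : Set Q) := by
      ext g
      simp only [Set.mem_ofPred_eq, MonoidHom.mem_range, Finset.coe_image, Set.mem_image,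
        Finset.mem_coe, Finset.mem_filter, Finset.mem_univ, true_and]
      constructor
      · rintro ⟨⟨x, rfl⟩, hP⟩
        exact ⟨x, hP, rfl⟩
      · rintro ⟨x, hP, rfl⟩
        exact ⟨⟨x, rfl⟩, hP⟩
    change Nat.card ({g : Q | g ∈ θ.range ∧ P g} : Set Q) = _
    rw [e, Nat.card_eq_card_toFinset, Finset.toFinset_coe]
  rw [h1, h2, h3]
  rw [Finset.card_eq_sum_card_fiberwise (f := θ)
    (t := (univ.filter fun x : G => P (θ x)).image θ)
    (fun x hx => Finset.mem_coe.2 (Finset.mem_image_of_mem _ hx))]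
  rw [Finset.sum_const_nat (m := (univ.filter fun x : G => θ x = 1).card)]
  intro b hb
  obtain ⟨x, hx, rfl⟩ := Finset.mem_image.1 hb
  have hP := (Finset.mem_filter.1 hx).2
  have : (Finset.filter (fun a => θ a = θ x) (univ.filter fun x : G => P (θ x))) =
      univ.filter fun a : G => θ a = θ x := by
    ext a
    simp only [Finset.mem_filter, Finset.mem_univ, true_and]
    exact ⟨fun h => h.2, fun h => ⟨h ▸ hP, h⟩⟩
  rw [this]
  exact MonoidHom.card_fiber_eq_of_mem_range θ ⟨x, rfl⟩ ⟨1, map_one θ⟩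

theorem almost_of {G₁ G₂ : Type*} [Group G₁] [Group G₂] [Fintype G₁] [Fintype G₂]
    {Q : Type*} [Group Q] (θ₁ : G₁ →* Q) (θ₂ : G₂ →* Q) (φ : G₁ → G₂) (hφ : φ.Bijective)
    (h : ∀ x, IsConj (θ₁ x) (θ₂ (φ x))) : AlmostConjugate θ₁.range θ₂.range := by
  classical
  have key : ∀ P : Q → Prop, (∀ a b, IsConj a b → (P a ↔ P b)) →
      Nat.card {x : G₁ // P (θ₁ x)} = Nat.card {x : G₂ // P (θ₂ x)} := by
    intro P hP
    rw [Nat.card_eq_fintype_card, Nat.card_eq_fintype_card, Fintype.card_subtype,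
      Fintype.card_subtype]
    refine Finset.card_bijective φ hφ fun x => ?_
    simp only [Finset.mem_filter, Finset.mem_univ, true_and]
    exact hP _ _ (h x)
  intro x
  have h1 := key (fun g => IsConj x g) fun a b hab =>
    ⟨fun h => h.trans hab, fun h => h.trans hab.symm⟩
  have h2 := key (fun g => g = 1) fun a b hab =>
    ⟨fun h => by subst h; exact isConj_one_right.1 hab,
      fun h => by subst h; exact isConj_one_right.1 hab.symm⟩
  rw [card_range_inter θ₁, card_range_inter θ₂, h2] at h1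
  refine Nat.eq_of_mul_eq_mul_right ?_ h1
  have : Nonempty {x : G₂ // θ₂ x = 1} := ⟨⟨1, map_one θ₂⟩⟩
  exact Nat.card_pos

/-- An abelian and a non-abelian subgroup modulo the centre. -/
theorem abcore {G₁ G₂ : Type*} [CommGroup G₁] [Group G₂] [Fintype G₁] [Fintype G₂]
    {K : Type*} [Group K] (f₁ : G₁ →* K) (f₂ : G₂ →* K) (φ : G₁ → G₂) (hφ : φ.Bijective)
    (h : ∀ x, IsConj (f₁ x) (f₂ (φ x))) (a b : G₂)
    (hab : f₂ (a * b * a⁻¹ * b⁻¹) ∉ Subgroup.center K)
    (Z : Subgroup K) [Z.Normal] (hZ : Z ≤ Subgroup.center K) : HasPair (K ⧸ Z) := by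
  let π : K →* K ⧸ Z := QuotientGroup.mk' Z
  refine ⟨(π.comp f₁).range, (π.comp f₂).range,
    Finite.of_surjective (π.comp f₁).rangeRestrict (π.comp f₁).rangeRestrict_surjective,
    Finite.of_surjective (π.comp f₂).rangeRestrict (π.comp f₂).rangeRestrict_surjective,
    almost_of _ _ φ hφ fun x => MonoidHom.map_isConj π (h x), ?_⟩
  rintro ⟨g, hg⟩
  have ex : ∀ y : G₂, ∃ x : G₁, π (f₂ y) = g * π (f₁ x) * g⁻¹ := by
    intro y
    obtain ⟨x, hx⟩ := (hg (g⁻¹ * π (f₂ y) * g)).2 ⟨y, by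
      change π (f₂ y) = _
      group⟩
    change π (f₁ x) = g⁻¹ * π (f₂ y) * g at hx
    exact ⟨x, by rw [hx]; group⟩
  obtain ⟨x, hx⟩ := ex a
  obtain ⟨y, hy⟩ := ex b
  have hc : π (f₂ (a * b * a⁻¹ * b⁻¹)) = 1 := by
    simp only [map_mul, map_inv]
    rw [hx, hy]
    have hxy : π (f₁ x) * π (f₁ y) = π (f₁ y) * π (f₁ x) := by
      rw [← map_mul, ← map_mul, mul_comm, map_mul, map_mul]
    calc g * π (f₁ x) * g⁻¹ * (g * π (f₁ y) * g⁻¹) * (g * π (f₁ x) * g⁻¹)⁻¹ *
          (g * π (f₁ y) * g⁻¹)⁻¹ = g * (π (f₁ x) * π (f₁ y)) * (π (f₁ y) * π (f₁ x))⁻¹ * g⁻¹ := by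
          group
      _ = 1 := by rw [hxy]; group
  exact hab (hZ ((QuotientGroup.eq_one_iff _).1 hc))

end Pool.Agent.U570.AC
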