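import Pool.Agent.U570.AC.Base
import Pool.Agent.U570.AC.Gen

set_option autoImplicit false

open Matrix Finset

namespace Pool.Agent.U570.AC

theorem core {m : ℕ} {K : Type*} [Group K] (ι : SOZ (m + 6) →* K) (τ : K → ℝ)
    (hτ : ∀ g k, τ (g * k * g⁻¹) = τ k) (hι : ∀ M, τ (ι M) = ((M.1.trace : ℤ) : ℝ))
    (Z : Subgroup K) [Z.Normal] (hZ : Z ≤ Subgroup.center K)
    (hz : ∀ z ∈ Z, z * z = 1 → (∀ k, τ (k * z) = τ k) ∨ (∀ k, τ (k * z) = -τ k)) :
    HasPair (K ⧸ Z) := by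
  let π : K →* K ⧸ Z := QuotientGroup.mk' Z
  let θ₁ : E →* K ⧸ Z := (π.comp ι).comp (D1 m)
  let θ₂ : E →* K ⧸ Z := (π.comp ι).comp (D2 m)
  refine ⟨θ₁.range, θ₂.range, Finite.of_surjective θ₁.rangeRestrict θ₁.rangeRestrict_surjective,
    Finite.of_surjective θ₂.rangeRestrict θ₂.rangeRestrict_surjective, almost_of θ₁ θ₂ phiFun phi_bij
    fun x => ?_, ?_⟩
  · obtain ⟨M, hM⟩ := conj_D m x
    refine isConj_iff.2 ⟨π (ι M), ?_⟩
    change π (ι M) * π (ι (D1 m x)) * (π (ι M))⁻¹ = π (ι (D2 m (phiFun x)))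
    rw [mul_inv_eq_iff_eq_mul, ← map_mul, ← map_mul, hM, map_mul, map_mul]
  · rintro ⟨g, hg⟩
    obtain ⟨g, rfl⟩ := QuotientGroup.mk'_surjective Z g
    have hc : ∀ z ∈ Z, ∀ k, k * z = z * k := fun z h k => Subgroup.mem_center_iff.1 (hZ h) k
    have t1 : ∀ x, τ (ι (D1 m x)) = (s1 x : ℝ) + m := by
      intro x
      rw [hι]
      change (((Dg (c1 (m + 6) x)).trace : ℤ) : ℝ) = _
      rw [trace_Dg, sum_c1]
      push_cast
      ring
    have t2 : ∀ x, τ (ι (D2 m x)) = (s2 x : ℝ) + m := by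
      intro x
      rw [hι]
      change (((Dg (c2 (m + 6) x)).trace : ℤ) : ℝ) = _
      rw [trace_Dg, sum_c2]
      push_cast
      ring
    have ex : ∀ x : E, x * x = 1 := by decide
    have step : ∀ x : E, ∃ y : E, ∃ z ∈ Z, g * ι (D1 m x) * g⁻¹ = ι (D2 m y) * z := by
      intro x
      obtain ⟨y, hy⟩ := (hg (θ₁ x)).1 ⟨x, rfl⟩
      have h1 : π (ι (D2 m y)) = π (g * ι (D1 m x) * g⁻¹) := by
        rw [map_mul, map_mul, map_inv]
        exact hy
      have h2 := (QuotientGroup.eq.1 h1 :)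
      exact ⟨y, _, h2, by group⟩
    have sq : ∀ y : E, ∀ z ∈ Z, ∀ x : E, g * ι (D1 m x) * g⁻¹ = ι (D2 m y) * z → z * z = 1 := by
      intro y z hzZ x h
      have h1 : (g * ι (D1 m x) * g⁻¹) * (g * ι (D1 m x) * g⁻¹) = 1 := by
        have : ι (D1 m x) * ι (D1 m x) = 1 := by
          rw [← map_mul, ← map_mul, ex, map_one, map_one]
        calc _ = g * (ι (D1 m x) * ι (D1 m x)) * g⁻¹ := by group
          _ = 1 := by rw [this]; group
      have h2 : ι (D2 m y) * ι (D2 m y) = 1 := by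
        rw [← map_mul, ← map_mul, ex, map_one, map_one]
      rw [h] at h1
      calc z * z = (ι (D2 m y) * ι (D2 m y)) * (z * z) := by rw [h2, one_mul]
        _ = ι (D2 m y) * (ι (D2 m y) * z) * z := by group
        _ = ι (D2 m y) * (z * ι (D2 m y)) * z := by rw [hc z hzZ (ι (D2 m y))]
        _ = (ι (D2 m y) * z) * (ι (D2 m y) * z) := by group
        _ = 1 := h1
    -- the sign of an element of the centre
    have pairc : ∀ x x' : E, s1 x = 2 → s1 x' = 2 → s1 (x * x') = -2 →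
        ∀ y z, z ∈ Z → g * ι (D1 m x) * g⁻¹ = ι (D2 m y) * z →
        ∀ y' z', z' ∈ Z → g * ι (D1 m x') * g⁻¹ = ι (D2 m y') * z' →
        ((∀ k, τ (k * z) = τ k) ∧ (∀ k, τ (k * z') = τ k) ∨
          (∀ k, τ (k * z) = -τ k) ∧ (∀ k, τ (k * z') = -τ k)) → False := by
      intro x x' hx hx' hxx y z hzZ e y' z' hz'Z e' hs
      have e2 : g * ι (D1 m (x * x')) * g⁻¹ = ι (D2 m (y * y')) * z * z' := by
        calc g * ι (D1 m (x * x')) * g⁻¹ = (g * ι (D1 m x) * g⁻¹) * (g * ι (D1 m x') * g⁻¹) := by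
              rw [map_mul, map_mul]; group
          _ = ι (D2 m y) * z * (ι (D2 m y') * z') := by rw [e, e']
          _ = ι (D2 m y) * (z * ι (D2 m y')) * z' := by group
          _ = ι (D2 m y) * (ι (D2 m y') * z) * z' := by rw [hc z hzZ]
          _ = ι (D2 m (y * y')) * z * z' := by rw [map_mul, map_mul]; group
      have f1 := congrArg τ e
      have f2 := congrArg τ e'
      have f3 := congrArg τ e2
      rw [hτ, t1, hx] at f1
      rw [hτ, t1, hx'] at f2
      rw [hτ, t1, hxx] at f3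
      rcases hs with ⟨a, b⟩ | ⟨a, b⟩
      · rw [a, t2] at f1
        rw [b, t2] at f2
        rw [b, a, t2] at f3
        have g1 : s2 y = s2 y' := by
          have : (s2 y : ℝ) = s2 y' := by linarith
          exact_mod_cast this
        have g2 : s2 (y * y') = -2 := by
          have : (s2 (y * y') : ℝ) = -2 := by push_cast at f3; linarith
          exact_mod_cast this
        exact no_pair y y' g1 g2
      · rw [a, t2] at f1
        rw [b, t2] at f2
        rw [b, a, t2, neg_neg] at f3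
        have g1 : s2 y = s2 y' := by
          have : (s2 y : ℝ) = s2 y' := by linarith
          exact_mod_cast this
        have g2 : s2 (y * y') = -2 := by
          have : (s2 (y * y') : ℝ) = -2 := by push_cast at f3; linarith
          exact_mod_cast this
        exact no_pair y y' g1 g2
    obtain ⟨y1, z1, m1, e1⟩ := step ![-1, 1, 1]
    obtain ⟨y2, z2, m2, e2⟩ := step ![1, -1, 1]
    obtain ⟨y3, z3, m3, e3⟩ := step ![1, 1, -1]
    have p12 := pairc ![-1, 1, 1] ![1, -1, 1] (by decide) (by decide) (by decide) y1 z1 m1 e1 y2 z2 m2 e2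
    have p13 := pairc ![-1, 1, 1] ![1, 1, -1] (by decide) (by decide) (by decide) y1 z1 m1 e1 y3 z3 m3 e3
    have p23 := pairc ![1, -1, 1] ![1, 1, -1] (by decide) (by decide) (by decide) y2 z2 m2 e2 y3 z3 m3 e3
    rcases hz z1 m1 (sq _ _ m1 _ e1) with h1 | h1 <;>
    rcases hz z2 m2 (sq _ _ m2 _ e2) with h2 | h2 <;>
    rcases hz z3 m3 (sq _ _ m3 _ e3) with h3 | h3
    · exact p12 (Or.inl ⟨h1, h2⟩)
    · exact p12 (Or.inl ⟨h1, h2⟩)
    · exact p13 (Or.inl ⟨h1, h3⟩)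
    · exact p23 (Or.inr ⟨h2, h3⟩)
    · exact p23 (Or.inl ⟨h2, h3⟩)
    · exact p13 (Or.inr ⟨h1, h3⟩)
    · exact p12 (Or.inr ⟨h1, h2⟩)
    · exact p12 (Or.inr ⟨h1, h2⟩)

end Pool.Agent.U570.AC
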