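import Pool.Agent.U570.AC.Inst

set_option autoImplicit false

open Matrix Quaternion

namespace Pool.Agent.U570.AC

/-- the hom from integer matrices -/
noncomputable def cmHom (R : Type*) [Ring R] (n : ℕ) : SOZ n →* Matrix (Fin n) (Fin n) R :=
  ((Int.castRingHom R).mapMatrix : Matrix (Fin n) (Fin n) ℤ →+* _).toMonoidHom.comp (SOZ n).subtype

theorem cmHom_apply (R : Type*) [Ring R] (n : ℕ) (M : SOZ n) : cmHom R n M = cm R M.1 := rfl

theorem cm_mul_transpose (R : Type*) [Ring R] {n : ℕ} (M : SOZ n) :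
    cm R M.1 * cm R (M.1)ᵀ = 1 := by
  rw [cm_eq, cm_eq, ← map_mul, M.2.1, map_one]

theorem cm_transpose_mul (R : Type*) [Ring R] {n : ℕ} (M : SOZ n) :
    cm R (M.1)ᵀ * cm R M.1 = 1 := by
  rw [cm_eq, cm_eq, ← map_mul, M.2.2.1, map_one]

theorem star_cm (R : Type*) [Ring R] [StarRing R] {n : ℕ} (M : Matrix (Fin n) (Fin n) ℤ) :
    star (cm R M) = cm R Mᵀ := by
  ext i j
  simp [cm, star_apply]

theorem cm_mem_unitary (R : Type*) [Ring R] [StarRing R] {n : ℕ} (M : SOZ n) :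
    cmHom R n M ∈ unitary (Matrix (Fin n) (Fin n) R) := by
  rw [cmHom_apply, Unitary.mem_iff, star_cm]
  exact ⟨cm_transpose_mul R M, cm_mul_transpose R M⟩

theorem det_cm (R : Type*) [CommRing R] {n : ℕ} (M : SOZ n) : (cm R M.1).det = 1 := by
  rw [cm_eq, ← RingHom.map_det, M.2.2.2, map_one]

theorem su {m : ℕ} (Z : Subgroup (specialUnitaryGroup (Fin (m + 6)) ℂ)) [Z.Normal]
    (hZ : Z ≤ Subgroup.center _) : HasPair (specialUnitaryGroup (Fin (m + 6)) ℂ ⧸ Z) := by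
  refine good_of (R := ℂ) Complex.reAddGroupHom (fun a b => by rw [mul_comm]) (by simp)
    (specialUnitaryGroup (Fin (m + 6)) ℂ).subtype
    ((cmHom ℂ (m + 6)).codRestrict _ fun M => ⟨cm_mem_unitary ℂ M, det_cm ℂ M⟩) (fun M => rfl) Z hZ

theorem so {m : ℕ} (Z : Subgroup (specialOrthogonalGroup (Fin (m + 6)) ℝ)) [Z.Normal]
    (hZ : Z ≤ Subgroup.center _) : HasPair (specialOrthogonalGroup (Fin (m + 6)) ℝ ⧸ Z) := by
  refine good_of (R := ℝ) (AddMonoidHom.id ℝ) (fun a b => by rw [mul_comm]) (by simp)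
    (specialOrthogonalGroup (Fin (m + 6)) ℝ).subtype
    ((cmHom ℝ (m + 6)).codRestrict _ fun M => mem_specialOrthogonalGroup_iff.2
      ⟨(mem_orthogonalGroup_iff _ _).2 (cm_mul_transpose ℝ M), det_cm ℝ M⟩) (fun M => rfl) Z hZ

/-- the real part of a quaternion -/
noncomputable def reQ : ℍ[ℝ] →+ ℝ where
  toFun q := q.re
  map_zero' := by simp
  map_add' a b := by simp

theorem sp {m : ℕ} (Z : Subgroup (unitary (Matrix (Fin (m + 6)) (Fin (m + 6)) ℍ[ℝ]))) [Z.Normal]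
    (hZ : Z ≤ Subgroup.center _) :
    HasPair (unitary (Matrix (Fin (m + 6)) (Fin (m + 6)) ℍ[ℝ]) ⧸ Z) := by
  haveI : CharZero ℍ[ℝ] := charZero_of_injective_algebraMap (algebraMap ℝ ℍ[ℝ]).injective
  refine good_of (R := ℍ[ℝ]) reQ (fun a b => ?_) (show (1 : ℍ[ℝ]).re = 1 from rfl)
    (unitary (Matrix (Fin (m + 6)) (Fin (m + 6)) ℍ[ℝ])).subtype
    ((cmHom ℍ[ℝ] (m + 6)).codRestrict _ fun M => cm_mem_unitary ℍ[ℝ] M) (fun M => rfl) Z hZ
  change (a * b).re = (b * a).re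
  simp only [Quaternion.re_mul]
  ring

end Pool.Agent.U570.AC
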