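import Pool.Agent.U570.AC.Gen

set_option autoImplicit false

open Finset

namespace Pool.Agent.U570.AC.GT

/-- Signs of the octonion multiplication table, coded by the bits of one number (bit `8 i + j` is set
when the sign is minus). The rows `i = 0, ..., 7`, over `j = 0, ..., 7` (m is minus, p is plus):
pppppppp, pmpmpmmp, pmmpppmm, ppmmpmpm, pmmmmppp, ppmpmmmp, pppmmpmm, pmppmmpm. -/
def ep (i j : Fin 8) : ℤ := if Nat.testBit 12887178008817199616 (8 * i.val + j.val) then -1 else 1

/-- the octonion product on `ℝ^8` -/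
noncomputable def omul (x y : Fin 8 → ℝ) : Fin 8 → ℝ :=
  fun k => ∑ i, ∑ j, if i ^^^ j = k then (ep i j : ℝ) * (x i * y j) else 0

/-- the linear equivalences of `ℝ^8` -/
abbrev L8 := (Fin 8 → ℝ) ≃ₗ[ℝ] (Fin 8 → ℝ)

/-- the value of a linear equivalence -/
def ap (f : L8) (x : Fin 8 → ℝ) : Fin 8 → ℝ := f x

/-- an automorphism of the octonion algebra -/
def IsAut (f : L8) : Prop := ∀ x y, ap f (omul x y) = omul (ap f x) (ap f y)

theorem isAut_one : IsAut 1 := fun _ _ => rfl

theorem isAut_mul {f g : L8} (hf : IsAut f) (hg : IsAut g) : IsAut (f * g) := by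
  intro x y
  change f (g (omul x y)) = omul (f (g x)) (f (g y))
  have h1 : g (omul x y) = omul (g x) (g y) := hg x y
  have h2 : f (omul (g x) (g y)) = omul (f (g x)) (f (g y)) := hf _ _
  rw [h1, h2]

theorem isAut_inv {f : L8} (hf : IsAut f) : IsAut f⁻¹ := by
  intro x y
  change f.symm (omul x y) = omul (f.symm x) (f.symm y)
  have h2 : f (omul (f.symm x) (f.symm y)) = omul (f (f.symm x)) (f (f.symm y)) := hf _ _
  rw [LinearEquiv.symm_apply_eq, h2, LinearEquiv.apply_symm_apply, LinearEquiv.apply_symm_apply]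

/-- the compact group `G_2`: linear automorphisms of the octonion algebra -/
def G2 : Subgroup L8 where
  carrier := {f | IsAut f}
  one_mem' := isAut_one
  mul_mem' := isAut_mul
  inv_mem' := isAut_inv

/-- signed permutations -/
abbrev PS := (Fin 8 → Fin 8) × (Fin 8 → ℤ)

/-- product -/
def pmul (a b : PS) : PS := (fun i => a.1 (b.1 i), fun i => b.2 i * a.2 (b.1 i))

/-- one -/
def pone : PS := (fun i => i, fun _ => 1)

theorem S1 (p : Fin 8 → Fin 8) (F g : Fin 8 → ℝ) :
    ∑ u, F u * (∑ i, if p i = u then g i else 0) = ∑ i, F (p i) * g i := by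
  simp_rw [Finset.mul_sum]
  rw [Finset.sum_comm]
  refine Finset.sum_congr rfl fun i _ => ?_
  rw [Finset.sum_eq_single (p i)]
  · simp
  · intro b _ hb
    rw [if_neg (Ne.symm hb), mul_zero]
  · simp

/-- linear map of a signed permutation -/
noncomputable def Lm (a : PS) : (Fin 8 → ℝ) →ₗ[ℝ] (Fin 8 → ℝ) where
  toFun x k := ∑ i, if a.1 i = k then (a.2 i : ℝ) * x i else 0
  map_add' x y := by
    funext k
    simp only [Pi.add_apply, ← Finset.sum_add_distrib]
    refine Finset.sum_congr rfl fun i _ => ?_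
    split_ifs <;> ring
  map_smul' c x := by
    funext k
    simp only [Pi.smul_apply, smul_eq_mul, RingHom.id_apply, Finset.mul_sum]
    refine Finset.sum_congr rfl fun i _ => ?_
    split_ifs <;> ring

theorem Lm_apply (a : PS) (x : Fin 8 → ℝ) (k : Fin 8) :
    Lm a x k = ∑ i, if a.1 i = k then (a.2 i : ℝ) * x i else 0 := rfl

theorem ite_mul_form (p : Fin 8 → Fin 8) (s x : Fin 8 → ℝ) (k : Fin 8) :
    (∑ i, if p i = k then s i * x i else 0) = ∑ i, (if p i = k then s i else 0) * x i := by
  refine Finset.sum_congr rfl fun i _ => ?_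
  split_ifs <;> ring

theorem Lm_mul (a b : PS) (x : Fin 8 → ℝ) : Lm (pmul a b) x = Lm a (Lm b x) := by
  funext k
  rw [Lm_apply, Lm_apply, ite_mul_form a.1 (fun i => (a.2 i : ℝ))]
  simp only [Lm_apply]
  rw [S1 b.1]
  refine Finset.sum_congr rfl fun i _ => ?_
  simp only [pmul]
  push_cast
  split_ifs <;> ring

theorem Lm_one (x : Fin 8 → ℝ) : Lm pone x = x := by
  funext k
  rw [Lm_apply]
  simp [pone]

/-- automorphism condition -/
def IsA (a : PS) : Prop := ∀ i j, a.1 (i ^^^ j) = a.1 i ^^^ a.1 j ∧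
  a.2 (i ^^^ j) * ep i j = a.2 i * a.2 j * ep (a.1 i) (a.1 j)

instance (a : PS) : Decidable (IsA a) := by unfold IsA; infer_instance

theorem aut_of (a : PS) (h : IsA a) (x y : Fin 8 → ℝ) :
    Lm a (omul x y) = omul (Lm a x) (Lm a y) := by
  funext k
  have hL : Lm a (omul x y) k = ∑ i, ∑ j, (if a.1 (i ^^^ j) = k then (a.2 (i ^^^ j) : ℝ) else 0) *
      ((ep i j : ℝ) * (x i * y j)) := by
    rw [Lm_apply, ite_mul_form a.1 (fun i => (a.2 i : ℝ))]
    simp only [omul]
    simp_rw [Finset.mul_sum]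
    rw [Finset.sum_comm]
    refine Finset.sum_congr rfl fun i _ => ?_
    simp_rw [← Finset.mul_sum]
    exact S1 (fun j => i ^^^ j) (fun l => if a.1 l = k then (a.2 l : ℝ) else 0)
      (fun j => (ep i j : ℝ) * (x i * y j))
  have hR : omul (Lm a x) (Lm a y) k = ∑ i, ∑ j,
      (if a.1 i ^^^ a.1 j = k then (ep (a.1 i) (a.1 j) : ℝ) else 0) *
      ((a.2 i * x i) * (a.2 j * y j)) := by
    have e1 : omul (Lm a x) (Lm a y) k = ∑ u, ∑ v,
        ((if u ^^^ v = k then (ep u v : ℝ) else 0) * Lm a x u) * Lm a y v := by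
      simp only [omul]
      refine Finset.sum_congr rfl fun u _ => Finset.sum_congr rfl fun v _ => ?_
      split_ifs <;> ring
    rw [e1]
    have e2 : ∀ u, ∑ v, ((if u ^^^ v = k then (ep u v : ℝ) else 0) * Lm a x u) * Lm a y v =
        ∑ j, ((if u ^^^ a.1 j = k then (ep u (a.1 j) : ℝ) else 0) * Lm a x u) * (a.2 j * y j) :=
      fun u => S1 a.1 (fun v => (if u ^^^ v = k then (ep u v : ℝ) else 0) * Lm a x u)
        (fun j => a.2 j * y j)
    rw [Finset.sum_congr rfl fun u _ => e2 u, Finset.sum_comm]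
    conv_rhs => rw [Finset.sum_comm]
    refine Finset.sum_congr rfl fun j _ => ?_
    have e3 := S1 a.1 (fun u => (if u ^^^ a.1 j = k then (ep u (a.1 j) : ℝ) else 0) * (a.2 j * y j))
      (fun i => a.2 i * x i)
    calc _ = ∑ u, ((if u ^^^ a.1 j = k then (ep u (a.1 j) : ℝ) else 0) * (a.2 j * y j)) *
          (∑ i, if a.1 i = u then (a.2 i : ℝ) * x i else 0) := by
          refine Finset.sum_congr rfl fun u _ => ?_
          rw [Lm_apply]
          ring
      _ = _ := by
          rw [e3]
          refine Finset.sum_congr rfl fun i _ => ?_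
          ring
  rw [hL, hR]
  refine Finset.sum_congr rfl fun i _ => Finset.sum_congr rfl fun j _ => ?_
  obtain ⟨h1, h2⟩ := h i j
  rw [← h1]
  split_ifs
  · have h3 := congrArg (Int.cast : ℤ → ℝ) h2
    push_cast at h3
    linear_combination (x i * y j) * h3
  · ring


/-- element from a signed permutation and its inverse -/
noncomputable def Le (a b : PS) (h1 : pmul a b = pone) (h2 : pmul b a = pone) (ha : IsA a) : G2 :=
  ⟨LinearEquiv.ofLinearMap (Lm a) (Lm b)
    (LinearMap.ext fun x => by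
      change Lm a (Lm b x) = x
      rw [← Lm_mul, h1, Lm_one])
    (LinearMap.ext fun x => by
      change Lm b (Lm a x) = x
      rw [← Lm_mul, h2, Lm_one]), fun x y => aut_of a ha x y⟩

theorem Le_ext {f g : G2} (h : ∀ x, f.1 x = g.1 x) : f = g :=
  Subtype.ext (LinearEquiv.ext h)

/-- injectivity of the linear map -/
theorem Lm_inj (a b : PS) (ha : ∀ i, a.2 i ≠ 0) (h : ∀ x, Lm a x = Lm b x) : a = b := by
  have key : ∀ i k, (if a.1 i = k then (a.2 i : ℝ) else 0) = if b.1 i = k then (b.2 i : ℝ) else 0 := by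
    intro i k
    have h1 := congrFun (h (Pi.single i 1)) k
    rw [Lm_apply, Lm_apply, Finset.sum_eq_single i, Finset.sum_eq_single i] at h1
    · simpa using h1
    · intro j _ hj
      simp [Pi.single_eq_of_ne hj]
    · simp
    · intro j _ hj
      simp [Pi.single_eq_of_ne hj]
    · simp
  have h1 : ∀ i, a.1 i = b.1 i := by
    intro i
    have h2 := key i (a.1 i)
    rw [if_pos rfl] at h2
    by_contra hne
    rw [if_neg (fun h => hne h.symm)] at h2
    exact ha i (by exact_mod_cast h2)
  refine Prod.ext (funext h1) (funext fun i => ?_)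
  have h2 := key i (a.1 i)
  rw [if_pos rfl, if_pos (h1 i).symm] at h2
  exact_mod_cast h2

end Pool.Agent.U570.AC.GT
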