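import Pool.Agent.U570.AC.GT1

set_option autoImplicit false

open Finset

namespace Pool.Agent.U570.AC.GT

/-- signed permutation automorphism from the images of the generators -/
def mkA (d : Fin 8 × Fin 8 × Fin 8 × ℤ × ℤ × ℤ) : PS :=
  let p1 := d.1
  let p2 := d.2.1
  let p4 := d.2.2.1
  let s1 := d.2.2.2.1
  let s2 := d.2.2.2.2.1
  let s4 := d.2.2.2.2.2
  let s3 := s1 * s2 * ep p1 p2 * ep 1 2
  (![0, p1, p2, p1 ^^^ p2, p4, p1 ^^^ p4, p2 ^^^ p4, p1 ^^^ p2 ^^^ p4],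
    ![1, s1, s2, s3, s4, s1 * s4 * ep p1 p4 * ep 1 4, s2 * s4 * ep p2 p4 * ep 2 4,
      s3 * s4 * ep (p1 ^^^ p2) p4 * ep 3 4])

/-- sign bit -/
def bt (t k : ℕ) : ℤ := if (t / 2 ^ k) % 2 = 0 then 1 else -1

/-- first family -/
def F1 (t : Fin 32) : PS :=
  mkA (1, 2, Fin.ofNat 8 (4 + t.val / 8), bt t.val 0, bt t.val 1, bt t.val 2)

/-- second family -/
def F2 (t : Fin 32) : PS :=
  mkA (1, Fin.ofNat 8 (2 + t.val / 16), Fin.ofNat 8 (4 + (t.val / 8) % 2), bt t.val 0, bt t.val 1,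
    bt t.val 2)

/-- bit of a sign -/
def bb (s : ℤ) : ℕ := if s = 1 then 0 else 1

/-- index -/
def ix1 (a : PS) : Fin 32 :=
  Fin.ofNat 32 (8 * ((a.1 4).val - 4) + bb (a.2 1) + 2 * bb (a.2 2) + 4 * bb (a.2 4))

/-- index -/
def ix2 (a : PS) : Fin 32 :=
  Fin.ofNat 32 (16 * ((a.1 2).val - 2) + 8 * ((a.1 4).val - 4) + bb (a.2 1) + 2 * bb (a.2 2) +
    4 * bb (a.2 4))

/-- data -/
def cdat : Fin 32 → Fin 8 × Fin 8 × Fin 8 × ℤ × ℤ × ℤ := ![(1, 2, 4, 1, 1, 1), (1, 2, 4, 1, 1,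
  1), (1, 2, 4, 1, 1, 1), (1, 2, 4, 1, 1, 1), (1, 2, 4, 1, 1, 1), (1, 2, 4, 1, 1, 1), (1, 2, 4,
  1, 1, 1), (1, 2, 4, 1, 1, 1), (1, 2, 4, 1, 1, 1), (1, 2, 4, 1, 1, 1), (1, 2, 4, 1, 1, 1), (1,
  2, 4, 1, 1, 1), (1, 2, 4, 1, 1, 1), (1, 2, 4, 1, 1, 1), (1, 2, 4, 1, 1, 1), (1, 2, 4, 1, 1,
  1), (4, 1, 2, 1, 1, 1), (4, 1, 2, 1, 1, 1), (4, 1, 2, 1, 1, 1), (4, 1, 2, 1, 1, 1), (4, 1, 2,
  1, 1, 1), (4, 1, 2, 1, 1, 1), (4, 1, 2, 1, 1, 1), (4, 1, 2, 1, 1, 1), (6, 7, 2, 1, 1, 1), (6,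
  7, 2, 1, 1, 1), (6, 7, 2, 1, 1, 1), (6, 7, 2, 1, 1, 1), (6, 7, 2, 1, 1, 1), (6, 7, 2, 1, 1,
  1), (6, 7, 2, 1, 1, 1), (6, 7, 2, 1, 1, 1)]

/-- data -/
def idat : Fin 32 → Fin 8 × Fin 8 × Fin 8 × ℤ × ℤ × ℤ := ![(1, 2, 4, 1, 1, 1), (1, 2, 4, 1, 1,
  1), (1, 2, 4, 1, 1, 1), (1, 2, 4, 1, 1, 1), (1, 2, 4, 1, 1, 1), (1, 2, 4, 1, 1, 1), (1, 2, 4,
  1, 1, 1), (1, 2, 4, 1, 1, 1), (1, 2, 4, 1, 1, 1), (1, 2, 4, 1, 1, 1), (1, 2, 4, 1, 1, 1), (1,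
  2, 4, 1, 1, 1), (1, 2, 4, 1, 1, 1), (1, 2, 4, 1, 1, 1), (1, 2, 4, 1, 1, 1), (1, 2, 4, 1, 1,
  1), (2, 4, 1, 1, 1, 1), (2, 4, 1, 1, 1, 1), (2, 4, 1, 1, 1, 1), (2, 4, 1, 1, 1, 1), (2, 4, 1,
  1, 1, 1), (2, 4, 1, 1, 1, 1), (2, 4, 1, 1, 1, 1), (2, 4, 1, 1, 1, 1), (3, 4, 5, -1, 1, 1), (3,
  4, 5, -1, 1, 1), (3, 4, 5, -1, 1, 1), (3, 4, 5, -1, 1, 1), (3, 4, 5, -1, 1, 1), (3, 4, 5, -1,
  1, 1), (3, 4, 5, -1, 1, 1), (3, 4, 5, -1, 1, 1)]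

/-- data -/
def phi : Fin 32 → Fin 32 := ![0, 1, 2, 3, 4, 5, 6, 7, 8, 9, 10, 11, 12, 13, 14, 15, 16, 20, 17,
  21, 18, 22, 19, 23, 26, 31, 27, 30, 28, 25, 29, 24]

/-- data -/
def inv1 : Fin 32 → Fin 32 := ![0, 1, 2, 3, 4, 5, 6, 7, 12, 9, 14, 11, 8, 13, 10, 15, 20, 21,
  18, 19, 16, 17, 22, 23, 28, 25, 26, 31, 24, 29, 30, 27]

/-- data -/
def inv2 : Fin 32 → Fin 32 := ![0, 1, 2, 3, 4, 5, 6, 7, 12, 9, 14, 11, 8, 13, 10, 15, 18, 17,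
  16, 19, 22, 21, 20, 23, 30, 25, 28, 27, 26, 29, 24, 31]

/-- conjugators -/
def C (t : Fin 32) : PS := mkA (cdat t)

/-- their inverses -/
def Ci (t : Fin 32) : PS := mkA (idat t)

theorem A1 : ∀ t, IsA (F1 t) := by decide +kernel
theorem A2 : ∀ t, IsA (F2 t) := by decide +kernel
theorem A3 : ∀ t, IsA (C t) := by decide +kernel
theorem I1 : ∀ t, pmul (F1 t) (F1 (inv1 t)) = pone ∧ pmul (F1 (inv1 t)) (F1 t) = pone := by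
  decide +kernel
theorem I2 : ∀ t, pmul (F2 t) (F2 (inv2 t)) = pone ∧ pmul (F2 (inv2 t)) (F2 t) = pone := by
  decide +kernel
theorem IC : ∀ t, pmul (C t) (Ci t) = pone ∧ pmul (Ci t) (C t) = pone := by decide +kernel
theorem M1 : ∀ s t, pmul (F1 s) (F1 t) = F1 (ix1 (pmul (F1 s) (F1 t))) := by decide +kernel
theorem M2 : ∀ s t, pmul (F2 s) (F2 t) = F2 (ix2 (pmul (F2 s) (F2 t))) := by decide +kernel
theorem X1 : ∀ t, ix1 (F1 t) = t := by decide +kernel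
theorem X2 : ∀ t, ix2 (F2 t) = t := by decide +kernel
theorem N1 : ∀ t i, (F1 t).2 i ≠ 0 := by decide +kernel
theorem N2 : ∀ t i, (F2 t).2 i ≠ 0 := by decide +kernel
theorem O1 : F1 0 = pone := by decide +kernel
theorem O2 : F2 0 = pone := by decide +kernel
theorem CJ : ∀ t, pmul (C t) (F1 t) = pmul (F2 (phi t)) (C t) := by decide +kernel
theorem PB : Function.Bijective phi := by decide +kernel
theorem Z1 : ∀ t, (∀ s, pmul (F1 t) (F1 s) = pmul (F1 s) (F1 t)) → t = 0 ∨ t = 4 := by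
  decide +kernel
theorem Z2 : ∀ s, pmul (F2 2) (F2 s) = pmul (F2 s) (F2 2) ∧
    pmul (F2 4) (F2 s) = pmul (F2 s) (F2 4) := by decide +kernel

end Pool.Agent.U570.AC.GT
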