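import Pool.Agent.U570.AC.GT2

set_option autoImplicit false

open Finset

namespace Pool.Agent.U570.AC.GT

theorem Le_mul {a b c d e f : PS} (h1 h2 ha) (h3 h4 hc) (h5 h6 he) (h : pmul a c = e) :
    Le a b h1 h2 ha * Le c d h3 h4 hc = Le e f h5 h6 he := by
  subst h
  apply Le_ext
  intro x
  exact (Lm_mul a c x).symm

/-- first family in the group -/
noncomputable def k1 (t : Fin 32) : G2 := Le (F1 t) (F1 (inv1 t)) (I1 t).1 (I1 t).2 (A1 t)

/-- second family in the group -/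
noncomputable def k2 (t : Fin 32) : G2 := Le (F2 t) (F2 (inv2 t)) (I2 t).1 (I2 t).2 (A2 t)

theorem k1_mul (s t : Fin 32) : k1 s * k1 t = k1 (ix1 (pmul (F1 s) (F1 t))) :=
  Le_mul _ _ _ _ _ _ _ _ _ (M1 s t)

theorem k2_mul (s t : Fin 32) : k2 s * k2 t = k2 (ix2 (pmul (F2 s) (F2 t))) :=
  Le_mul _ _ _ _ _ _ _ _ _ (M2 s t)

theorem k1_zero : k1 0 = 1 := by
  apply Le_ext
  intro x
  change Lm (F1 0) x = x
  rw [O1, Lm_one]

theorem k2_zero : k2 0 = 1 := by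
  apply Le_ext
  intro x
  change Lm (F2 0) x = x
  rw [O2, Lm_one]

theorem k1_inv (t : Fin 32) : (k1 t)⁻¹ = k1 (inv1 t) := by
  rw [inv_eq_iff_mul_eq_one, ← k1_zero, k1_mul, (I1 t).1]
  congr 1

theorem k2_inv (t : Fin 32) : (k2 t)⁻¹ = k2 (inv2 t) := by
  rw [inv_eq_iff_mul_eq_one, ← k2_zero, k2_mul, (I2 t).1]
  congr 1

theorem k1_inj : Function.Injective k1 := by
  intro s t h
  have h1 : F1 s = F1 t := Lm_inj _ _ (N1 s) fun x => congrArg (fun f : G2 => f.1 x) h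
  rw [← X1 s, h1, X1]

theorem k2_inj : Function.Injective k2 := by
  intro s t h
  have h1 : F2 s = F2 t := Lm_inj _ _ (N2 s) fun x => congrArg (fun f : G2 => f.1 x) h
  rw [← X2 s, h1, X2]

/-- first subgroup, of order 32 -/
def Γ₁ : Subgroup G2 where
  carrier := Set.range k1
  one_mem' := ⟨0, k1_zero⟩
  mul_mem' := by
    rintro _ _ ⟨s, rfl⟩ ⟨t, rfl⟩
    exact ⟨_, (k1_mul s t).symm⟩
  inv_mem' := by
    rintro _ ⟨s, rfl⟩
    exact ⟨_, (k1_inv s).symm⟩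

/-- second subgroup, of order 32 -/
def Γ₂ : Subgroup G2 where
  carrier := Set.range k2
  one_mem' := ⟨0, k2_zero⟩
  mul_mem' := by
    rintro _ _ ⟨s, rfl⟩ ⟨t, rfl⟩
    exact ⟨_, (k2_mul s t).symm⟩
  inv_mem' := by
    rintro _ ⟨s, rfl⟩
    exact ⟨_, (k2_inv s).symm⟩

theorem conj12 (t : Fin 32) : IsConj (k1 t) (k2 (phi t)) := by
  refine isConj_iff.2 ⟨Le (C t) (Ci t) (IC t).1 (IC t).2 (A3 t), ?_⟩
  rw [mul_inv_eq_iff_eq_mul]
  apply Le_ext
  intro x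
  change Lm (C t) (Lm (F1 t) x) = Lm (F2 (phi t)) (Lm (C t) x)
  rw [← Lm_mul, ← Lm_mul, CJ]

theorem count {K : Type*} [Group K] (Γ : Subgroup K) (k : Fin 32 → K) (hk : Function.Injective k)
    (hΓ : ∀ g, g ∈ Γ ↔ g ∈ Set.range k) (P : K → Prop) :
    Nat.card {g : K // g ∈ Γ ∧ P g} = Nat.card {t : Fin 32 // P (k t)} := by
  symm
  refine Nat.card_congr (Equiv.ofBijective
    (fun t => (⟨k t.1, (hΓ _).2 ⟨t.1, rfl⟩, t.2⟩ : {g : K // g ∈ Γ ∧ P g})) ⟨?_, ?_⟩)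
  · intro s t h
    exact Subtype.ext (hk (congrArg (fun z : {g : K // g ∈ Γ ∧ P g} => z.1) h))
  · rintro ⟨g, h1, h2⟩
    obtain ⟨t, rfl⟩ := (hΓ g).1 h1
    exact ⟨⟨t, h2⟩, rfl⟩

theorem almost12 : AlmostConjugate Γ₁ Γ₂ := by
  intro x
  rw [count Γ₁ k1 k1_inj (fun g => Iff.rfl), count Γ₂ k2 k2_inj (fun g => Iff.rfl)]
  refine Nat.card_congr (Equiv.subtypeEquiv (Equiv.ofBijective phi PB) fun t => ?_)
  exact ⟨fun h => h.trans (conj12 t), fun h => h.trans (conj12 t).symm⟩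

theorem comm1 (t : Fin 32) (h : ∀ s, k1 t * k1 s = k1 s * k1 t) : t = 0 ∨ t = 4 := by
  refine Z1 t fun s => ?_
  have h1 := h s
  rw [k1_mul, k1_mul] at h1
  rw [M1 t s, M1 s t, k1_inj h1]

theorem comm2 (r s : Fin 32) (h : pmul (F2 r) (F2 s) = pmul (F2 s) (F2 r)) :
    k2 r * k2 s = k2 s * k2 r := by
  rw [k2_mul, k2_mul, h]

theorem not12 : ¬ ∃ g : G2, ∀ x : G2, x ∈ Γ₁ ↔ g * x * g⁻¹ ∈ Γ₂ := by
  rintro ⟨g, hg⟩
  have back : ∀ r : Fin 32, (∀ s, k2 r * k2 s = k2 s * k2 r) →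
      g⁻¹ * k2 r * g = k1 0 ∨ g⁻¹ * k2 r * g = k1 4 := by
    intro r hr
    obtain ⟨t, ht⟩ : g⁻¹ * k2 r * g ∈ Γ₁ := (hg _).2 ⟨r, by group⟩
    have : t = 0 ∨ t = 4 := by
      refine comm1 t fun s => ?_
      obtain ⟨s', hs'⟩ : g * k1 s * g⁻¹ ∈ Γ₂ := (hg _).1 ⟨s, rfl⟩
      have e : k1 s = g⁻¹ * k2 s' * g := by rw [hs']; group
      rw [ht, e]
      calc g⁻¹ * k2 r * g * (g⁻¹ * k2 s' * g) = g⁻¹ * (k2 r * k2 s') * g := by group
        _ = g⁻¹ * (k2 s' * k2 r) * g := by rw [hr s']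
        _ = g⁻¹ * k2 s' * g * (g⁻¹ * k2 r * g) := by group
    rcases this with rfl | rfl
    · exact Or.inl ht.symm
    · exact Or.inr ht.symm
  have c0 := back 0 fun s => by rw [k2_zero, one_mul, mul_one]
  have c2 := back 2 fun s => comm2 _ _ (Z2 s).1
  have c4 := back 4 fun s => comm2 _ _ (Z2 s).2
  have inj : ∀ r r' : Fin 32, g⁻¹ * k2 r * g = g⁻¹ * k2 r' * g → r = r' := by
    intro r r' h
    have h1 := mul_right_cancel h
    exact k2_inj (mul_left_cancel h1)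
  rcases c0 with a | a <;> rcases c2 with b | b <;> rcases c4 with c | c
  · exact absurd (inj 0 2 (a.trans b.symm)) (by decide)
  · exact absurd (inj 0 2 (a.trans b.symm)) (by decide)
  · exact absurd (inj 0 4 (a.trans c.symm)) (by decide)
  · exact absurd (inj 2 4 (b.trans c.symm)) (by decide)
  · exact absurd (inj 2 4 (b.trans c.symm)) (by decide)
  · exact absurd (inj 0 4 (a.trans c.symm)) (by decide)
  · exact absurd (inj 0 2 (a.trans b.symm)) (by decide)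
  · exact absurd (inj 0 2 (a.trans b.symm)) (by decide)

theorem g2pair : HasPair G2 :=
  ⟨Γ₁, Γ₂, (Set.finite_range k1).to_subtype, (Set.finite_range k2).to_subtype, almost12, not12⟩

end Pool.Agent.U570.AC.GT
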