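import Pool.Agent.U570.AC.Core

set_option autoImplicit false

open Matrix Finset

namespace Pool.Agent.U570.AC

/-- an integer matrix seen over another ring -/
def cm (R : Type*) [Ring R] {n : ℕ} (M : Matrix (Fin n) (Fin n) ℤ) : Matrix (Fin n) (Fin n) R :=
  M.map (Int.cast : ℤ → R)

theorem cm_eq (R : Type*) [Ring R] {n : ℕ} (M : Matrix (Fin n) (Fin n) ℤ) :
    cm R M = (Int.castRingHom R).mapMatrix M := rfl

theorem scalar_of_comm {R : Type*} [Ring R] [NoZeroDivisors R] [CharZero R] {m : ℕ}
    (z : Matrix (Fin (m + 6)) (Fin (m + 6)) R)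
    (h : ∀ M ∈ SOZ (m + 6), z * cm R M = cm R M * z) (h1 : z * z = 1) : z = 1 ∨ z = -1 := by
  -- off diagonal entries vanish
  have off : ∀ k l, k ≠ l → z k l = 0 := by
    intro k l hkl
    obtain ⟨j, hj⟩ : ∃ j : Fin (m + 6), j ∉ ({k, l} : Finset (Fin (m + 6))) := by
      by_contra hn
      push Not at hn
      have : (Finset.univ : Finset (Fin (m + 6))).card ≤ ({k, l} : Finset (Fin (m + 6))).card :=
        Finset.card_le_card fun j _ => hn j
      rw [Finset.card_univ, Fintype.card_fin] at this
      have h2 := Finset.card_le_two (a := k) (b := l)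
      omega
    simp only [Finset.mem_insert, Finset.mem_singleton, not_or] at hj
    have hs : ∏ i, (fun i => if i ∈ ({k, j} : Finset (Fin (m + 6))) then (-1 : ℤˣ) else 1) i = 1 := by
      rw [Finset.prod_ite, Finset.prod_const_one, mul_one, Finset.prod_const]
      have : (Finset.univ.filter fun i => i ∈ ({k, j} : Finset (Fin (m + 6)))) = {k, j} := by
        ext i; simp
      rw [this, Finset.card_pair (Ne.symm hj.1)]
      rfl
    have h2 := h _ (Dg_mem _ hs)
    have h3 := congrFun (congrFun h2 k) l
    have e : cm R (Dg fun i => if i ∈ ({k, j} : Finset (Fin (m + 6))) then (-1 : ℤˣ) else 1) =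
        diagonal fun i => ((((if i ∈ ({k, j} : Finset (Fin (m + 6))) then (-1 : ℤˣ) else 1) : ℤˣ) : ℤ) : R) := by
      rw [cm, Dg, diagonal_map (by simp)]
    rw [e, mul_diagonal, diagonal_mul] at h3
    have hl : l ∉ ({k, j} : Finset (Fin (m + 6))) := by
      simp only [Finset.mem_insert, Finset.mem_singleton, not_or]
      exact ⟨Ne.symm hkl, Ne.symm hj.2⟩
    have hk : k ∈ ({k, j} : Finset (Fin (m + 6))) := by simp
    rw [if_neg hl, if_pos hk] at h3
    simp only [Units.val_one, Int.cast_one, mul_one, Units.val_neg, Int.cast_neg, neg_mul,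
      one_mul] at h3
    have h4 : (2 : R) * z k l = 0 := by
      rw [two_mul]
      nth_rewrite 1 [h3]
      simp
    rcases mul_eq_zero.1 h4 with h5 | h5
    · exact absurd h5 two_ne_zero
    · exact h5
  have dg : ∀ k, z k k = z 0 0 := by
    intro k
    obtain ⟨s, hs⟩ := exists_SP m (Equiv.swap 0 k)
    have h2 := h _ hs
    have h3 := congrFun (congrFun h2 0) k
    rw [mul_apply, mul_apply, Finset.sum_eq_single (0 : Fin (m + 6)),
      Finset.sum_eq_single k] at h3
    · have e1 : cm R (SP s (Equiv.swap 0 k)) 0 k = ((s 0 : ℤ) : R) := by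
        simp [cm, SP]
      rw [e1] at h3
      rcases Int.units_eq_one_or (s 0) with h | h
      · rw [h] at h3
        simpa using h3.symm
      · rw [h] at h3
        simpa using h3.symm
    · intro b _ hb
      rw [off b k hb, mul_zero]
    · simp
    · intro b _ hb
      rw [off 0 b (Ne.symm hb), zero_mul]
    · simp
  have hd : z = diagonal fun _ => z 0 0 := by
    ext i j
    by_cases hij : i = j
    · subst hij
      rw [diagonal_apply_eq, dg]
    · rw [diagonal_apply_ne _ hij, off i j hij]
  have h4 : z 0 0 * z 0 0 = 1 := by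
    rw [hd, diagonal_mul_diagonal] at h1
    have := congrFun (congrFun h1 0) 0
    simpa using this
  rcases mul_self_eq_one_iff.1 h4 with h5 | h5
  · left
    rw [hd, h5]
    exact diagonal_one
  · right
    rw [hd, h5]
    ext i j
    by_cases hij : i = j
    · subst hij; simp
    · simp [hij]

theorem good_of {R : Type*} [Ring R] [NoZeroDivisors R] [CharZero R] (ρ : R →+ ℝ)
    (hρ : ∀ a b, ρ (a * b) = ρ (b * a)) (h1 : ρ 1 = 1) {m : ℕ} {K : Type*} [Group K]
    (v : K →* Matrix (Fin (m + 6)) (Fin (m + 6)) R)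
    (ι : SOZ (m + 6) →* K) (hvι : ∀ M, v (ι M) = cm R M.1)
    (Z : Subgroup K) [Z.Normal] (hZ : Z ≤ Subgroup.center K) : HasPair (K ⧸ Z) := by
  have tr : ∀ A B : Matrix (Fin (m + 6)) (Fin (m + 6)) R, ρ (trace (A * B)) = ρ (trace (B * A)) := by
    intro A B
    simp only [trace, diag_apply, mul_apply, map_sum]
    rw [Finset.sum_comm]
    refine Finset.sum_congr rfl fun i _ => Finset.sum_congr rfl fun j _ => hρ _ _
  refine core ι (fun k => ρ (trace (v k))) (fun g k => ?_) (fun M => ?_) Z hZ fun z hz hzz => ?_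
  · rw [map_mul, tr, ← map_mul, inv_mul_cancel_left]
  · rw [hvι]
    have : trace (cm R M.1) = (((M.1.trace : ℤ)) : R) := by
      simp [trace, cm]
    rw [this, show ((M.1.trace : ℤ) : R) = M.1.trace • (1 : R) by simp, map_zsmul, h1]
    simp
  · have hs : v z = 1 ∨ v z = -1 := by
      refine scalar_of_comm (v z) (fun M hM => ?_) (by rw [← map_mul, hzz, map_one])
      have := hvι ⟨M, hM⟩
      rw [← this, ← map_mul, ← map_mul]
      congr 1
      exact (Subgroup.mem_center_iff.1 (hZ hz) _).symm
    rcases hs with h | h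
    · left
      intro k
      rw [map_mul, h, mul_one]
    · right
      intro k
      rw [map_mul, h, mul_neg, mul_one, trace_neg, map_neg]

end Pool.Agent.U570.AC
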