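import Pool.Agent.U570.AC.Gen

set_option autoImplicit false

open Matrix Finset Quaternion

namespace Pool.Agent.U570.AC

/-- the quaternion group of order eight -/
abbrev Q8 := QuaternionGroup 2

/-- integer coordinates of the elements of the quaternion group of order eight -/
def co : Q8 → Fin 4 → ℤ
  | .a i => if i = 0 then ![1, 0, 0, 0] else if i = 1 then ![0, 1, 0, 0]
      else if i = 2 then ![-1, 0, 0, 0] else ![0, -1, 0, 0]
  | .xa i => if i = 0 then ![0, 0, 1, 0] else if i = 1 then ![0, 0, 0, -1]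
      else if i = 2 then ![0, 0, -1, 0] else ![0, 0, 0, 1]

theorem co_mul0 : ∀ x y : Q8, co (x * y) 0 =
    co x 0 * co y 0 - co x 1 * co y 1 - co x 2 * co y 2 - co x 3 * co y 3 := by decide
theorem co_mul1 : ∀ x y : Q8, co (x * y) 1 =
    co x 0 * co y 1 + co x 1 * co y 0 + co x 2 * co y 3 - co x 3 * co y 2 := by decide
theorem co_mul2 : ∀ x y : Q8, co (x * y) 2 =
    co x 0 * co y 2 - co x 1 * co y 3 + co x 2 * co y 0 + co x 3 * co y 1 := by decide
theorem co_mul3 : ∀ x y : Q8, co (x * y) 3 =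
    co x 0 * co y 3 + co x 1 * co y 2 - co x 2 * co y 1 + co x 3 * co y 0 := by decide
theorem co_norm : ∀ x : Q8, co x 0 ^ 2 + co x 1 ^ 2 + co x 2 ^ 2 + co x 3 ^ 2 = 1 := by decide

/-- the quaternion -/
noncomputable def hq (x : Q8) : ℍ[ℝ] := ⟨co x 0, co x 1, co x 2, co x 3⟩

theorem hq_mul (x y : Q8) : hq (x * y) = hq x * hq y := by
  have h0 := congrArg (Int.cast : ℤ → ℝ) (co_mul0 x y)
  have h1 := congrArg (Int.cast : ℤ → ℝ) (co_mul1 x y)
  have h2 := congrArg (Int.cast : ℤ → ℝ) (co_mul2 x y)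
  have h3 := congrArg (Int.cast : ℤ → ℝ) (co_mul3 x y)
  push_cast at h0 h1 h2 h3
  ext
  · rw [Quaternion.re_mul]; exact h0
  · rw [Quaternion.imI_mul]; exact h1
  · rw [Quaternion.imJ_mul]; exact h2
  · rw [Quaternion.imK_mul]; exact h3

theorem hq_one : hq 1 = 1 := by
  have h0 : co 1 0 = 1 := by decide
  have h1 : co 1 1 = 0 := by decide
  have h2 : co 1 2 = 0 := by decide
  have h3 : co 1 3 = 0 := by decide
  ext <;> simp [hq, h0, h1, h2, h3]

theorem unit_of {q : ℍ[ℝ]} (h : q.re ^ 2 + q.imI ^ 2 + q.imJ ^ 2 + q.imK ^ 2 = 1) :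
    q ∈ unitary ℍ[ℝ] := by
  rw [Unitary.mem_iff]
  constructor
  · ext
    · simp only [Quaternion.re_mul, Quaternion.re_star, Quaternion.imI_star, Quaternion.imJ_star,
        Quaternion.imK_star, Quaternion.re_one]
      linarith
    · simp only [Quaternion.imI_mul, Quaternion.re_star, Quaternion.imI_star, Quaternion.imJ_star,
        Quaternion.imK_star, Quaternion.imI_one]
      ring
    · simp only [Quaternion.imJ_mul, Quaternion.re_star, Quaternion.imI_star, Quaternion.imJ_star,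
        Quaternion.imK_star, Quaternion.imJ_one]
      ring
    · simp only [Quaternion.imK_mul, Quaternion.re_star, Quaternion.imI_star, Quaternion.imJ_star,
        Quaternion.imK_star, Quaternion.imK_one]
      ring
  · ext
    · simp only [Quaternion.re_mul, Quaternion.re_star, Quaternion.imI_star, Quaternion.imJ_star,
        Quaternion.imK_star, Quaternion.re_one]
      linarith
    · simp only [Quaternion.imI_mul, Quaternion.re_star, Quaternion.imI_star, Quaternion.imJ_star,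
        Quaternion.imK_star, Quaternion.imI_one]
      ring
    · simp only [Quaternion.imJ_mul, Quaternion.re_star, Quaternion.imI_star, Quaternion.imJ_star,
        Quaternion.imK_star, Quaternion.imJ_one]
      ring
    · simp only [Quaternion.imK_mul, Quaternion.re_star, Quaternion.imI_star, Quaternion.imJ_star,
        Quaternion.imK_star, Quaternion.imK_one]
      ring

/-- the embedding into the unit quaternions -/
noncomputable def hu : Q8 →* unitary ℍ[ℝ] where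
  toFun x := ⟨hq x, unit_of (by
    have := congrArg (Int.cast : ℤ → ℝ) (co_norm x)
    push_cast at this
    exact this)⟩
  map_one' := Subtype.ext hq_one
  map_mul' x y := Subtype.ext (hq_mul x y)

/-- conjugators, in half integers -/
def cw : Q8 → Fin 4 → ℤ
  | .a i => if i = 3 then ![0, 0, 2, 0] else ![2, 0, 0, 0]
  | .xa i => if i = 0 then ![1, 1, 1, 1] else if i = 1 then ![1, 1, 1, -1]
      else if i = 2 then ![1, 1, -1, -1] else ![1, 1, -1, 1]

/-- type of an element: its order up to renaming -/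
def ty (x : Q8) : ℕ := if x = 1 then 0 else if x = .a 2 then 1 else 2

theorem cw_norm : ∀ x : Q8, cw x 0 ^ 2 + cw x 1 ^ 2 + cw x 2 ^ 2 + cw x 3 ^ 2 = 4 := by decide

theorem cw0 : ∀ q : Q8, ty q = 2 → cw q 0 * co (.a 1) 0 - cw q 1 * co (.a 1) 1 -
    cw q 2 * co (.a 1) 2 - cw q 3 * co (.a 1) 3 = co q 0 * cw q 0 - co q 1 * cw q 1 -
    co q 2 * cw q 2 - co q 3 * cw q 3 := by decide
theorem cw1 : ∀ q : Q8, ty q = 2 → cw q 0 * co (.a 1) 1 + cw q 1 * co (.a 1) 0 +
    cw q 2 * co (.a 1) 3 - cw q 3 * co (.a 1) 2 = co q 0 * cw q 1 + co q 1 * cw q 0 +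
    co q 2 * cw q 3 - co q 3 * cw q 2 := by decide
theorem cw2 : ∀ q : Q8, ty q = 2 → cw q 0 * co (.a 1) 2 - cw q 1 * co (.a 1) 3 +
    cw q 2 * co (.a 1) 0 + cw q 3 * co (.a 1) 1 = co q 0 * cw q 2 - co q 1 * cw q 3 +
    co q 2 * cw q 0 + co q 3 * cw q 1 := by decide
theorem cw3 : ∀ q : Q8, ty q = 2 → cw q 0 * co (.a 1) 3 + cw q 1 * co (.a 1) 2 -
    cw q 2 * co (.a 1) 1 + cw q 3 * co (.a 1) 0 = co q 0 * cw q 3 + co q 1 * cw q 2 -
    co q 2 * cw q 1 + co q 3 * cw q 0 := by decide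

theorem conj_I (q : Q8) (hq2 : ty q = 2) : IsConj (hu (.a 1)) (hu q) := by
  let w : ℍ[ℝ] := ⟨cw q 0 / 2, cw q 1 / 2, cw q 2 / 2, cw q 3 / 2⟩
  have hw : w ∈ unitary ℍ[ℝ] := unit_of (by
    have := congrArg (Int.cast : ℤ → ℝ) (cw_norm q)
    push_cast at this
    change ((cw q 0 : ℝ) / 2) ^ 2 + ((cw q 1 : ℝ) / 2) ^ 2 + ((cw q 2 : ℝ) / 2) ^ 2 +
      ((cw q 3 : ℝ) / 2) ^ 2 = 1
    linarith)
  refine isConj_iff.2 ⟨⟨w, hw⟩, ?_⟩
  rw [mul_inv_eq_iff_eq_mul]
  apply Subtype.ext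
  change w * hq (.a 1) = hq q * w
  have h0 := congrArg (Int.cast : ℤ → ℝ) (cw0 q hq2)
  have h1 := congrArg (Int.cast : ℤ → ℝ) (cw1 q hq2)
  have h2 := congrArg (Int.cast : ℤ → ℝ) (cw2 q hq2)
  have h3 := congrArg (Int.cast : ℤ → ℝ) (cw3 q hq2)
  push_cast at h0 h1 h2 h3
  ext
  · rw [Quaternion.re_mul, Quaternion.re_mul]
    change ((cw q 0 : ℝ) / 2) * (co (.a 1) 0) - ((cw q 1 : ℝ) / 2) * (co (.a 1) 1) -
      ((cw q 2 : ℝ) / 2) * (co (.a 1) 2) - ((cw q 3 : ℝ) / 2) * (co (.a 1) 3) =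
      (co q 0) * ((cw q 0 : ℝ) / 2) - (co q 1) * ((cw q 1 : ℝ) / 2) -
      (co q 2) * ((cw q 2 : ℝ) / 2) - (co q 3) * ((cw q 3 : ℝ) / 2)
    linarith
  · rw [Quaternion.imI_mul, Quaternion.imI_mul]
    change ((cw q 0 : ℝ) / 2) * (co (.a 1) 1) + ((cw q 1 : ℝ) / 2) * (co (.a 1) 0) +
      ((cw q 2 : ℝ) / 2) * (co (.a 1) 3) - ((cw q 3 : ℝ) / 2) * (co (.a 1) 2) =
      (co q 0) * ((cw q 1 : ℝ) / 2) + (co q 1) * ((cw q 0 : ℝ) / 2) +
      (co q 2) * ((cw q 3 : ℝ) / 2) - (co q 3) * ((cw q 2 : ℝ) / 2)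
    linarith
  · rw [Quaternion.imJ_mul, Quaternion.imJ_mul]
    change ((cw q 0 : ℝ) / 2) * (co (.a 1) 2) - ((cw q 1 : ℝ) / 2) * (co (.a 1) 3) +
      ((cw q 2 : ℝ) / 2) * (co (.a 1) 0) + ((cw q 3 : ℝ) / 2) * (co (.a 1) 1) =
      (co q 0) * ((cw q 2 : ℝ) / 2) - (co q 1) * ((cw q 3 : ℝ) / 2) +
      (co q 2) * ((cw q 0 : ℝ) / 2) + (co q 3) * ((cw q 1 : ℝ) / 2)
    linarith
  · rw [Quaternion.imK_mul, Quaternion.imK_mul]
    change ((cw q 0 : ℝ) / 2) * (co (.a 1) 3) + ((cw q 1 : ℝ) / 2) * (co (.a 1) 2) -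
      ((cw q 2 : ℝ) / 2) * (co (.a 1) 1) + ((cw q 3 : ℝ) / 2) * (co (.a 1) 0) =
      (co q 0) * ((cw q 3 : ℝ) / 2) + (co q 1) * ((cw q 2 : ℝ) / 2) -
      (co q 2) * ((cw q 1 : ℝ) / 2) + (co q 3) * ((cw q 0 : ℝ) / 2)
    linarith

theorem ty_cases : ∀ x y : Q8, ty x = ty y → x = y ∨ (ty x = 2 ∧ ty y = 2) := by decide

theorem conj_ty {x y : Q8} (h : ty x = ty y) : IsConj (hu x) (hu y) := by
  rcases ty_cases x y h with h | ⟨h1, h2⟩
  · rw [h]
  · exact (conj_I x h1).symm.trans (conj_I y h2)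

/-- the diagonal hom into the compact symplectic group -/
noncomputable def dl (n : ℕ) : (Fin n → unitary ℍ[ℝ]) →*
    unitary (Matrix (Fin n) (Fin n) ℍ[ℝ]) where
  toFun u := ⟨diagonal fun i => (u i : ℍ[ℝ]), by
    rw [Unitary.mem_iff, star_eq_conjTranspose, diagonal_conjTranspose]
    constructor
    · rw [diagonal_mul_diagonal, ← diagonal_one]
      congr 1
      funext i
      exact Unitary.star_mul_self_of_mem (u i).2
    · rw [diagonal_mul_diagonal, ← diagonal_one]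
      congr 1
      funext i
      exact Unitary.mul_star_self_of_mem (u i).2⟩
  map_one' := by
    apply Subtype.ext
    simp
  map_mul' x y := by
    apply Subtype.ext
    simp [diagonal_mul_diagonal]

/-- a permutation matrix -/
noncomputable def pm {n : ℕ} (σ : Equiv.Perm (Fin n)) : unitary (Matrix (Fin n) (Fin n) ℍ[ℝ]) :=
  ⟨(1 : Matrix (Fin n) (Fin n) ℍ[ℝ]).submatrix σ id, by
    rw [Unitary.mem_iff, star_eq_conjTranspose]
    constructor
    · ext1 i j
      simp only [mul_apply, conjTranspose_apply, submatrix_apply, id, Matrix.one_apply]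
      rw [Finset.sum_eq_single (σ.symm i)]
      · simp [Matrix.one_apply]
      · intro b _ hb
        have : σ b ≠ i := fun h => hb (by rw [← h]; simp)
        simp [this]
      · simp
    · ext1 i j
      simp only [mul_apply, conjTranspose_apply, submatrix_apply, id, Matrix.one_apply]
      rw [Finset.sum_eq_single (σ i)]
      · by_cases h : i = j
        · subst h; simp
        · simp [h, Ne.symm h]
      · intro b _ hb
        simp [hb.symm]
      · simp⟩

theorem conj_perm {n : ℕ} (σ : Equiv.Perm (Fin n)) (u : Fin n → unitary ℍ[ℝ]) :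
    IsConj (dl n u) (dl n (u ∘ σ)) := by
  refine isConj_iff.2 ⟨pm σ, ?_⟩
  rw [mul_inv_eq_iff_eq_mul]
  apply Subtype.ext
  change (1 : Matrix (Fin n) (Fin n) ℍ[ℝ]).submatrix σ id * diagonal (fun i => (u i : ℍ[ℝ])) =
    diagonal (fun i => (u (σ i) : ℍ[ℝ])) * (1 : Matrix (Fin n) (Fin n) ℍ[ℝ]).submatrix σ id
  ext1 i j
  rw [mul_diagonal, diagonal_mul, submatrix_apply, id, Matrix.one_apply]
  by_cases h : σ i = j
  · subst h; simp
  · simp [h]

theorem conj_diag {n : ℕ} (u v : Fin n → unitary ℍ[ℝ]) (h : ∀ i, IsConj (u i) (v i)) :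
    IsConj (dl n u) (dl n v) := by
  have : ∀ i, ∃ w, w * u i * w⁻¹ = v i := fun i => isConj_iff.1 (h i)
  choose w hw using this
  refine isConj_iff.2 ⟨dl n w, ?_⟩
  rw [← map_mul, ← map_inv, ← map_mul]
  congr 1
  funext i
  exact hw i

theorem conj_all {n : ℕ} (x y : Fin n → Q8) (σ : Equiv.Perm (Fin n))
    (h : ∀ i, ty (x (σ i)) = ty (y i)) :
    IsConj (dl n fun i => hu (x i)) (dl n fun i => hu (y i)) :=
  (conj_perm σ fun i => hu (x i)).trans (conj_diag _ _ fun i => conj_ty (h i))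

end Pool.Agent.U570.AC
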